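import Mathlib

set_option autoImplicit false

/-!
# MP_c0d803_al : a nested stack group which is not a context-free group

A group defined by a context-free set of relators is finitely presented (every useful nonterminal of
the grammar has a well defined value in the group, so finitely many relators, one for each rule,
suffice).  On the other hand the restricted wreath product of two infinite cyclic groups is presented
by an indexed set of relators and is not finitely presented.
-/

namespace Pool.Agent.Results.MP_c0d803_al.NestedStackNotContextFree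

/-- An indexed grammar (Aho 1968) over the alphabet `T` of terminals: finite sets of nonterminals and
of flags, a start symbol, and finitely many productions of the forms `X → α`, `X → Y f`, `X f → α`
with `X`, `Y` nonterminals, `f` a flag and `α` a word of terminals and nonterminals. -/
structure IndexedGrammar (T : Type) where
  /-- nonterminals -/
  NT : Type
  /-- flags (stack symbols) -/
  Flag : Type
  finite_NT : Finite NT
  finite_Flag : Finite Flag
  /-- the start symbol -/
  start : NT
  /-- productions `X → α` -/
  copyRules : Set (NT × List (T ⊕ NT))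
  /-- productions `X → Y f` -/
  pushRules : Set (NT × NT × Flag)
  /-- productions `X f → α` -/
  popRules : Set (NT × Flag × List (T ⊕ NT))
  finite_copyRules : copyRules.Finite
  finite_pushRules : pushRules.Finite
  finite_popRules : popRules.Finite

namespace IndexedGrammar

variable {T : Type}

/-- Sentential forms: words of terminals and of nonterminals carrying a stack of flags
(the top of the stack is the head of the list). -/
abbrev Form (γ : IndexedGrammar T) : Type := List (T ⊕ (γ.NT × List γ.Flag))

/-- Put a copy of the stack `l` on every nonterminal of the word `α`. -/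
def distribute (γ : IndexedGrammar T) (l : List γ.Flag) (α : List (T ⊕ γ.NT)) : γ.Form :=
  α.map (Sum.map id (fun B => (B, l)))

/-- One derivation step of an indexed grammar. -/
inductive Step (γ : IndexedGrammar T) : γ.Form → γ.Form → Prop
  | copy (p q : γ.Form) (X : γ.NT) (l : List γ.Flag) (α : List (T ⊕ γ.NT))
      (h : (X, α) ∈ γ.copyRules) :
      Step γ (p ++ [Sum.inr (X, l)] ++ q) (p ++ γ.distribute l α ++ q)
  | push (p q : γ.Form) (X Y : γ.NT) (f : γ.Flag) (l : List γ.Flag)
      (h : (X, Y, f) ∈ γ.pushRules) :
      Step γ (p ++ [Sum.inr (X, l)] ++ q) (p ++ [Sum.inr (Y, f :: l)] ++ q)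
  | pop (p q : γ.Form) (X : γ.NT) (f : γ.Flag) (l : List γ.Flag) (α : List (T ⊕ γ.NT))
      (h : (X, f, α) ∈ γ.popRules) :
      Step γ (p ++ [Sum.inr (X, f :: l)] ++ q) (p ++ γ.distribute l α ++ q)

/-- The language generated by an indexed grammar: the words of terminals which can be derived from
the start symbol with empty stack. -/
def language (γ : IndexedGrammar T) : Language T :=
  {w : List T | Relation.ReflTransGen γ.Step [Sum.inr (γ.start, [])] (w.map Sum.inl)}

end IndexedGrammar

/-- A language is indexed if it is generated by an indexed grammar. -/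
def IsIndexed {T : Type} (L : Language T) : Prop :=
  ∃ γ : IndexedGrammar T, γ.language = L

/-- A word over `Δ` read as an element of the free group on `Δ`. -/
def word {Δ : Type} (w : List Δ) : FreeGroup Δ := (w.map FreeGroup.of).prod

/-- The group `⟨Δ; w = 1 (w ∈ L)⟩`. -/
abbrev GroupDefinedBy {Δ : Type} (L : Language Δ) : Type :=
  PresentedGroup (word '' (L : Set (List Δ)))

/-- Nested stack groups: the groups `⟨Δ; w = 1 (w ∈ L)⟩` with `Δ` finite and `L` indexed. -/
def IsNestedStackGroup (G : Type) [Group G] : Prop :=
  ∃ (Δ : Type) (_ : Finite Δ) (L : Language Δ), IsIndexed L ∧ Nonempty (G ≃* GroupDefinedBy L)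

/-- Context-free groups: the groups `⟨Δ; w = 1 (w ∈ L)⟩` with `Δ` finite and `L` context-free. -/
def IsContextFreeGroup (G : Type) [Group G] : Prop :=
  ∃ (Δ : Type) (_ : Finite Δ) (L : Language Δ), L.IsContextFree ∧ Nonempty (G ≃* GroupDefinedBy L)

/-! ### Context-free relator languages give finitely presented groups -/

section ContextFree

variable {T : Type} (g : ContextFreeGrammar T)

lemma word_append (u v : List T) : word (u ++ v) = word u * word v := by
  simp [word]

lemma produces_append_split {u v w : List (Symbol T g.NT)} (h : g.Produces (u ++ v) w) :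
    (∃ u', g.Produces u u' ∧ w = u' ++ v) ∨ (∃ v', g.Produces v v' ∧ w = u ++ v') := by
  induction u generalizing w with
  | nil => exact Or.inr ⟨w, h, rfl⟩
  | cons x u ih =>
    obtain ⟨r, hr, hrw⟩ := h
    rw [List.cons_append] at hrw
    cases hrw with
    | head s => exact Or.inl ⟨r.output ++ u, ⟨r, hr, .head u⟩, by simp⟩
    | cons x hrs =>
      rcases ih ⟨r, hr, hrs⟩ with ⟨u', ⟨r', hr', h'⟩, rfl⟩ | ⟨v', h', rfl⟩
      · exact Or.inl ⟨x :: u', ⟨r', hr', .cons x h'⟩, rfl⟩
      · exact Or.inr ⟨v', h', rfl⟩

lemma derives_append_split {u v w : List (Symbol T g.NT)} (h : g.Derives (u ++ v) w) :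
    ∃ u' v', w = u' ++ v' ∧ g.Derives u u' ∧ g.Derives v v' := by
  induction h with
  | refl => exact ⟨u, v, rfl, .refl u, .refl v⟩
  | tail _ last ih =>
    obtain ⟨u', v', rfl, hu, hv⟩ := ih
    rcases produces_append_split g last with ⟨u'', h', rfl⟩ | ⟨v'', h', rfl⟩
    · exact ⟨u'', v', rfl, hu.trans_produces h', hv⟩
    · exact ⟨u', v'', rfl, hu, hv.trans_produces h'⟩

lemma derives_append_split_terminal {u v : List (Symbol T g.NT)} {w : List T}
    (h : g.Derives (u ++ v) (w.map Symbol.terminal)) :
    ∃ u' v' : List T, w = u' ++ v' ∧ g.Derives u (u'.map Symbol.terminal) ∧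
      g.Derives v (v'.map Symbol.terminal) := by
  obtain ⟨u', v', hw, hu, hv⟩ := derives_append_split g h
  obtain ⟨a, b, hab, ha, hb⟩ := List.map_eq_append_iff.1 hw
  exact ⟨a, b, hab, by rwa [ha], by rwa [hb]⟩

lemma derives_append {u v u' v' : List (Symbol T g.NT)} (hu : g.Derives u u')
    (hv : g.Derives v v') : g.Derives (u ++ v) (u' ++ v') :=
  (hu.append_right v).trans (hv.append_left u')

/-- The nonterminal `X` derives a word of terminals. -/
def Productive (X : g.NT) : Prop :=
  ∃ w : List T, g.Derives [Symbol.nonterminal X] (w.map Symbol.terminal)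

open Classical in
/-- A word derived from the nonterminal `X` (the empty word if there is none). -/
noncomputable def rep (X : g.NT) : List T :=
  if h : Productive g X then h.choose else []

lemma rep_spec {X : g.NT} (h : Productive g X) :
    g.Derives [Symbol.nonterminal X] ((rep g X).map Symbol.terminal) := by
  rw [rep, dif_pos h]
  exact h.choose_spec

/-- Replace every nonterminal by its representative. -/
noncomputable def repSym : Symbol T g.NT → List T
  | Symbol.terminal t => [t]
  | Symbol.nonterminal X => rep g X

/-- Replace every nonterminal by its representative. -/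
noncomputable def repWord (u : List (Symbol T g.NT)) : List T := (u.map (repSym g)).flatten

lemma repWord_append (u v : List (Symbol T g.NT)) :
    repWord g (u ++ v) = repWord g u ++ repWord g v := by
  simp [repWord]

lemma repWord_terminal (w : List T) : repWord g (w.map Symbol.terminal) = w := by
  induction w with
  | nil => rfl
  | cons x w ih =>
    have : repWord g ((x :: w).map Symbol.terminal) = x :: repWord g (w.map Symbol.terminal) := by
      simp [repWord, repSym]
    rw [this, ih]

lemma derives_repWord {u : List (Symbol T g.NT)} {w : List T}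
    (h : g.Derives u (w.map Symbol.terminal)) :
    g.Derives u ((repWord g u).map Symbol.terminal) := by
  induction u generalizing w with
  | nil => exact .refl _
  | cons x u ih =>
    rw [← List.singleton_append] at h
    obtain ⟨a, b, -, ha, hb⟩ := derives_append_split_terminal g h
    have hu := ih hb
    have hx : g.Derives [x] ((repWord g [x]).map Symbol.terminal) := by
      cases x with
      | terminal t => exact .refl _
      | nonterminal X =>
        have := rep_spec g (X := X) ⟨a, ha⟩
        simpa [repWord, repSym] using this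
    have := derives_append g hx hu
    rw [← List.map_append, ← repWord_append] at this
    simpa using this

/-- A rule is useful if it can occur in the derivation of a word of the language. -/
def Useful (r : ContextFreeRule T g.NT) : Prop :=
  ∃ (p q : List (Symbol T g.NT)) (w : List T),
    g.Derives [Symbol.nonterminal g.initial] (p ++ [Symbol.nonterminal r.input] ++ q) ∧
    g.Derives (p ++ r.output ++ q) (w.map Symbol.terminal)

/-- The relator attached to a rule. -/
noncomputable def ruleRelator (r : ContextFreeRule T g.NT) : FreeGroup T :=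
  (word (repWord g [Symbol.nonterminal r.input]))⁻¹ * word (repWord g r.output)

/-- The finite set of relators attached to a context-free grammar. -/
noncomputable def finRelators : Set (FreeGroup T) :=
  insert (word (repWord g [Symbol.nonterminal g.initial]))
    (ruleRelator g '' {r | r ∈ g.rules ∧ Useful g r})

lemma finRelators_finite : (finRelators g).Finite := by
  refine Set.Finite.insert _ (Set.Finite.image _ ?_)
  exact g.rules.finite_toSet.subset (fun r hr => hr.1)

lemma mem_normalClosure_of_mul {F : Type} [Group F] (N : Subgroup F) [N.Normal] {p a b q : F}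
    (h₁ : p * a * q ∈ N) (h₂ : p * b * q ∈ N) : a⁻¹ * b ∈ N := by
  have h := N.mul_mem (N.inv_mem h₁) h₂
  have h' := ‹N.Normal›.conj_mem _ h q
  have e : q * ((p * a * q)⁻¹ * (p * b * q)) * q⁻¹ = a⁻¹ * b := by group
  rwa [e] at h'

theorem normalClosure_finRelators (hne : ∃ w : List T, w ∈ g.language) :
    Subgroup.normalClosure (finRelators g) =
      Subgroup.normalClosure (word '' (g.language : Set (List T))) := by
  apply le_antisymm
  · apply Subgroup.normalClosure_le_normal
    rintro x hx
    rcases hx with rfl | ⟨r, ⟨hr, p, q, w, hpq, hw⟩, rfl⟩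
    · obtain ⟨w, hw⟩ := hne
      apply Subgroup.subset_normalClosure
      refine ⟨_, ?_, rfl⟩
      exact derives_repWord g hw
    · -- the relator of a useful rule holds in the group
      have hw' : g.Derives (p ++ (r.output ++ q)) (w.map Symbol.terminal) := by
        simpa using hw
      obtain ⟨wp, wr, -, hp, hrest⟩ := derives_append_split_terminal g hw'
      obtain ⟨wo, wq, -, ho, hq⟩ := derives_append_split_terminal g hrest
      have ho' := derives_repWord g ho
      have hin : g.Derives [Symbol.nonterminal r.input] (wo.map Symbol.terminal) := by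
        refine Relation.ReflTransGen.head ?_ ho
        exact ⟨r, hr, ContextFreeRule.Rewrites.input_output⟩
      have hin' := derives_repWord g hin
      have h₁ : wp ++ repWord g [Symbol.nonterminal r.input] ++ wq ∈ g.language := by
        refine hpq.trans ?_
        rw [List.map_append, List.map_append]
        exact derives_append g (derives_append g hp hin') hq
      have h₂ : wp ++ repWord g r.output ++ wq ∈ g.language := by
        have step : g.Produces (p ++ [Symbol.nonterminal r.input] ++ q) (p ++ r.output ++ q) :=
          ⟨r, hr, r.rewrites_of_exists_parts p q⟩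
        refine (hpq.trans_produces step).trans ?_
        rw [List.map_append, List.map_append]
        exact derives_append g (derives_append g hp ho') hq
      have k₁ := Subgroup.subset_normalClosure (s := word '' (g.language : Set (List T)))
        ⟨_, h₁, rfl⟩
      have k₂ := Subgroup.subset_normalClosure (s := word '' (g.language : Set (List T)))
        ⟨_, h₂, rfl⟩
      simp only [word_append] at k₁ k₂
      exact mem_normalClosure_of_mul _ k₁ k₂
  · apply Subgroup.normalClosure_le_normal
    rintro x ⟨w, hw, rfl⟩
    set N := Subgroup.normalClosure (finRelators g) with hN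
    have key : ∀ u : List (Symbol T g.NT), g.Derives u (w.map Symbol.terminal) →
        g.Derives [Symbol.nonterminal g.initial] u →
        (QuotientGroup.mk (word (repWord g u)) : FreeGroup T ⧸ N) = QuotientGroup.mk (word w) := by
      intro u hu
      induction hu using Relation.ReflTransGen.head_induction_on with
      | refl => intro _; rw [repWord_terminal]
      | head h' hrest ih =>
        rename_i u₁ u₂
        intro hinit
        have e₁ := ih (hinit.trans_produces h')
        rw [← e₁]
        obtain ⟨r, hr, hrw⟩ := h'
        obtain ⟨p, q, rfl, rfl⟩ := hrw.exists_parts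
        have hmem : ruleRelator g r ∈ N :=
          Subgroup.subset_normalClosure (Or.inr ⟨r, ⟨hr, p, q, w, hinit, hrest⟩, rfl⟩)
        have e : (QuotientGroup.mk (word (repWord g [Symbol.nonterminal r.input])) :
            FreeGroup T ⧸ N) = QuotientGroup.mk (word (repWord g r.output)) :=
          QuotientGroup.eq.2 hmem
        simp only [repWord_append, word_append, QuotientGroup.mk_mul, e]
    have h := key _ hw (.refl _)
    have h' : word (repWord g [Symbol.nonterminal g.initial]) ∈ N :=
      Subgroup.subset_normalClosure (Or.inl rfl)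
    rw [(QuotientGroup.eq_one_iff _).2 h'] at h
    exact (QuotientGroup.eq_one_iff _).1 h.symm

end ContextFree

/-- A group defined by a context-free set of relators is finitely presented. -/
theorem IsContextFreeGroup.isFinitelyPresented {G : Type} [Group G] (h : IsContextFreeGroup G) :
    Group.IsFinitelyPresented G := by
  obtain ⟨Δ, hΔ, L, ⟨g, rfl⟩, ⟨e⟩⟩ := h
  have hfin : ∃ s : Set (FreeGroup Δ), s.Finite ∧ Subgroup.normalClosure s =
      Subgroup.normalClosure (word '' (g.language : Set (List Δ))) := by
    by_cases hne : ∃ w : List Δ, w ∈ g.language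
    · exact ⟨finRelators g, finRelators_finite g, normalClosure_finRelators g hne⟩
    · refine ⟨∅, Set.finite_empty, ?_⟩
      have : word '' (g.language : Set (List Δ)) = ∅ := by
        rw [Set.image_eq_empty]
        ext w
        simp only [Set.mem_empty_iff_false, iff_false]
        exact fun hw => hne ⟨w, hw⟩
      rw [this]
  obtain ⟨s, hs, hsN⟩ := hfin
  have : Finite s := hs
  have e' : PresentedGroup s ≃* GroupDefinedBy g.language :=
    QuotientGroup.quotientMulEquivOfEq hsN
  exact Group.IsFinitelyPresented.equiv (e'.trans e.symm)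

/-! ### Finite presentability and increasing unions of kernels -/

theorem exists_ker_le {G : Type} [Group G] [hG : Group.IsFinitelyPresented G] {Δ : Type} [Finite Δ]
    (φ : FreeGroup Δ →* G) (hφ : Function.Surjective φ) (N : ℕ → Subgroup (FreeGroup Δ))
    (hnormal : ∀ m, (N m).Normal) (hmono : Monotone N)
    (hunion : ∀ x ∈ φ.ker, ∃ m, x ∈ N m) :
    ∃ m, φ.ker ≤ N m := by
  classical
  obtain ⟨n, φ', hφ', S, hS, hSN⟩ := hG.out
  -- a lift of `φ'` through `φ`
  choose lift hlift using fun i : Fin n => hφ (φ' (FreeGroup.of i))
  let ψ : FreeGroup (Fin n) →* FreeGroup Δ := FreeGroup.lift lift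
  have hψ : ∀ x, φ (ψ x) = φ' x := by
    intro x
    have : φ.comp ψ = φ' := by
      ext i
      simp [ψ, hlift]
    exact DFunLike.congr_fun this x
  choose back hback using fun δ : Δ => hφ' (φ (FreeGroup.of δ))
  -- a bound for the relators
  have hbound : ∀ s : Set (FreeGroup Δ), s.Finite → (∀ x ∈ s, x ∈ φ.ker) →
      ∃ m, ∀ x ∈ s, x ∈ N m := by
    intro s hs hker
    induction s, hs using Set.Finite.induction_on with
    | empty => exact ⟨0, by simp⟩
    | insert hxs hsf ih =>
      rename_i x s
      obtain ⟨m₁, hm₁⟩ := ih (fun y hy => hker y (Set.mem_insert_of_mem _ hy))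
      obtain ⟨m₂, hm₂⟩ := hunion x (hker x (Set.mem_insert _ _))
      refine ⟨max m₁ m₂, ?_⟩
      rintro y (rfl | hy)
      · exact hmono (le_max_right _ _) hm₂
      · exact hmono (le_max_left _ _) (hm₁ y hy)
  obtain ⟨m₁, hm₁⟩ := hbound (ψ '' S) (hS.image _) (by
    rintro _ ⟨s, hs, rfl⟩
    have : s ∈ φ'.ker := by rw [← hSN]; exact Subgroup.subset_normalClosure hs
    rw [MonoidHom.mem_ker, hψ]
    exact this)
  obtain ⟨m₂, hm₂⟩ := hbound (Set.range (fun δ : Δ => ψ (back δ) * (FreeGroup.of δ)⁻¹))
    (Set.finite_range _) (by
      rintro _ ⟨δ, rfl⟩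
      rw [MonoidHom.mem_ker, map_mul, hψ, hback, map_inv, mul_inv_cancel])
  refine ⟨max m₁ m₂, ?_⟩
  set m := max m₁ m₂
  have := hnormal m
  -- the kernel of `φ'` is mapped into `N m` by `ψ`
  have hker' : ∀ x ∈ φ'.ker, ψ x ∈ N m := by
    intro x hx
    rw [← hSN] at hx
    have hle' : Subgroup.normalClosure S ≤ (N m).comap ψ := by
      apply Subgroup.normalClosure_le_normal
      intro s hs
      exact hmono (le_max_left _ _) (hm₁ _ ⟨s, hs, rfl⟩)
    exact hle' hx
  -- `x` and `ψ (x written in the other generators)` agree modulo `N m`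
  let β : FreeGroup Δ →* FreeGroup (Fin n) := FreeGroup.lift back
  have hβ : (QuotientGroup.mk' (N m)).comp (ψ.comp β) = QuotientGroup.mk' (N m) := by
    ext δ
    have hmem : ψ (back δ) * (FreeGroup.of δ)⁻¹ ∈ N m :=
      hmono (le_max_right _ _) (hm₂ _ ⟨δ, rfl⟩)
    simp only [MonoidHom.comp_apply, β, FreeGroup.lift_apply_of, QuotientGroup.mk'_apply]
    have h1 : ((ψ (back δ) * (FreeGroup.of δ)⁻¹ : FreeGroup Δ) : FreeGroup Δ ⧸ N m) = 1 :=
      (QuotientGroup.eq_one_iff _).2 hmem
    rw [QuotientGroup.mk_mul, QuotientGroup.mk_inv] at h1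
    exact mul_inv_eq_one.1 h1
  have hβφ : φ'.comp β = φ := by
    ext δ
    simp [β, hback]
  intro x hx
  have h1 : β x ∈ φ'.ker := by
    rw [MonoidHom.mem_ker]
    have := DFunLike.congr_fun hβφ x
    rw [MonoidHom.comp_apply] at this
    rw [this]
    exact hx
  have h2 := hker' _ h1
  have h3 := DFunLike.congr_fun hβ x
  rw [MonoidHom.comp_apply, MonoidHom.comp_apply, QuotientGroup.mk'_apply,
    QuotientGroup.mk'_apply, (QuotientGroup.eq_one_iff _).2 h2] at h3
  exact (QuotientGroup.eq_one_iff _).1 h3.symm

/-! ### The relators -/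

/-- The alphabet: `a`, `t` and their formal inverses `a'`, `t'`. -/
inductive Letter : Type
  | a | a' | t | t'
  deriving DecidableEq, Fintype

open Letter

/-- The relator `a t^n a t'^n a' t^n a' t'^n`. -/
def rel (n : ℕ) : List Letter :=
  [a] ++ List.replicate n t ++ [a] ++ List.replicate n t' ++ [a'] ++ List.replicate n t ++ [a'] ++
    List.replicate n t'

/-- The language of all relators. -/
def relLang : Language Letter := ({[a, a'], [t, t']} ∪ Set.range rel : Set (List Letter))

/-- The first `m` relators. -/
def relSet (m : ℕ) : Set (List Letter) := {[a, a'], [t, t']} ∪ rel '' {n | n < m}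

/-- The permutation representation which detects the `m`-th relator. -/
def permRep (m : ℕ) : FreeGroup Letter →* Equiv.Perm ℤ :=
  FreeGroup.lift (fun x => match x with
    | a => Equiv.swap 0 (m : ℤ)
    | a' => Equiv.swap 0 (m : ℤ)
    | t => Equiv.addRight 1
    | t' => (Equiv.addRight 1)⁻¹)

lemma word_replicate (n : ℕ) (x : Letter) :
    word (List.replicate n x) = (FreeGroup.of x) ^ n := by
  simp [word]

lemma word_rel (n : ℕ) : word (rel n) =
    FreeGroup.of a * (FreeGroup.of t) ^ n * FreeGroup.of a * (FreeGroup.of t') ^ n *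
      FreeGroup.of a' * (FreeGroup.of t) ^ n * FreeGroup.of a' * (FreeGroup.of t') ^ n := by
  simp only [rel, word_append, word_replicate]
  simp [word]

lemma addRight_pow (n : ℕ) : (Equiv.addRight (1 : ℤ)) ^ n = Equiv.addRight (n : ℤ) := by
  induction n with
  | zero => ext x; simp
  | succ n ih =>
    rw [pow_succ, ih]
    ext x
    simp [Equiv.Perm.mul_apply]
    ring

lemma permRep_rel (m n : ℕ) : permRep m (word (rel n)) =
    Equiv.swap 0 (m : ℤ) * Equiv.swap (n : ℤ) (m + n : ℤ) * Equiv.swap 0 (m : ℤ) *
      Equiv.swap (n : ℤ) (m + n : ℤ) := by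
  rw [word_rel]
  simp only [map_mul, map_pow]
  have ha : permRep m (FreeGroup.of a) = Equiv.swap 0 (m : ℤ) := by simp [permRep]
  have ha' : permRep m (FreeGroup.of a') = Equiv.swap 0 (m : ℤ) := by simp [permRep]
  have ht : permRep m (FreeGroup.of t) = Equiv.addRight 1 := by simp [permRep]
  have ht' : permRep m (FreeGroup.of t') = (Equiv.addRight 1)⁻¹ := by simp [permRep]
  rw [ha, ha', ht, ht', inv_pow, addRight_pow]
  have hconj : Equiv.addRight (n : ℤ) * Equiv.swap 0 (m : ℤ) * (Equiv.addRight (n : ℤ))⁻¹ =
      Equiv.swap (n : ℤ) (m + n : ℤ) := by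
    have := Equiv.swap_apply_apply (Equiv.addRight (n : ℤ)) 0 (m : ℤ)
    rw [← this]
    simp
  calc _ = Equiv.swap 0 (m : ℤ) *
        (Equiv.addRight (n : ℤ) * Equiv.swap 0 (m : ℤ) * (Equiv.addRight (n : ℤ))⁻¹) *
        Equiv.swap 0 (m : ℤ) *
        (Equiv.addRight (n : ℤ) * Equiv.swap 0 (m : ℤ) * (Equiv.addRight (n : ℤ))⁻¹) := by
        simp only [mul_assoc]
    _ = _ := by rw [hconj]

lemma permRep_rel_lt {m n : ℕ} (h : n < m) : permRep m (word (rel n)) = 1 := by
  rw [permRep_rel]
  rcases Nat.eq_zero_or_pos n with rfl | hn
  · simp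
  · have hcomm : Equiv.swap 0 (m : ℤ) * Equiv.swap (n : ℤ) (m + n : ℤ) =
        Equiv.swap (n : ℤ) (m + n : ℤ) * Equiv.swap 0 (m : ℤ) := by
      refine (Equiv.Perm.Disjoint.commute ?_).eq
      intro x
      by_cases h0 : x = 0
      · right
        subst h0
        apply Equiv.swap_apply_of_ne_of_ne <;> omega
      · by_cases hm : x = m
        · right
          subst hm
          apply Equiv.swap_apply_of_ne_of_ne <;> omega
        · left
          exact Equiv.swap_apply_of_ne_of_ne h0 hm
    rw [hcomm]
    simp [mul_assoc]

lemma permRep_rel_self {m : ℕ} (h : 0 < m) : permRep m (word (rel m)) ≠ 1 := by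
  rw [permRep_rel]
  intro he
  have h1 := DFunLike.congr_fun he (0 : ℤ)
  simp only [Equiv.Perm.mul_apply, Equiv.Perm.one_apply] at h1
  rw [Equiv.swap_apply_of_ne_of_ne (a := (m : ℤ)) (b := (m + m : ℤ)) (x := 0) (by omega) (by omega),
    Equiv.swap_apply_left, Equiv.swap_apply_left,
    Equiv.swap_apply_of_ne_of_ne (by omega) (by omega)] at h1
  omega

lemma permRep_relSet {m : ℕ} {x : FreeGroup Letter}
    (hx : x ∈ Subgroup.normalClosure (word '' relSet m)) : permRep m x = 1 := by
  have hle : Subgroup.normalClosure (word '' relSet m) ≤ (permRep m).ker := by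
    apply Subgroup.normalClosure_le_normal
    rintro _ ⟨w, hw, rfl⟩
    rcases hw with (rfl | rfl) | ⟨n, hn, rfl⟩
    · change permRep m (word [a, a']) = 1
      simp [word, permRep]
    · change permRep m (word [t, t']) = 1
      have ht : permRep m (FreeGroup.of t) = Equiv.addRight 1 := by simp [permRep]
      have ht' : permRep m (FreeGroup.of t') = (Equiv.addRight 1)⁻¹ := by simp [permRep]
      simp only [word, List.map_cons, List.map_nil, List.prod_cons, List.prod_nil, mul_one,
        map_mul, ht, ht', mul_inv_cancel]
    · exact permRep_rel_lt hn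
  exact hle hx

/-- The group `⟨a, a', t, t'; a a', t t', a t^n a t'^n a' t^n a' t'^n (n ≥ 0)⟩`, that is, the
restricted wreath product of two infinite cyclic groups, is not finitely presented. -/
theorem not_isFinitelyPresented : ¬ Group.IsFinitelyPresented (GroupDefinedBy relLang) := by
  intro hfp
  let N : ℕ → Subgroup (FreeGroup Letter) := fun m => Subgroup.normalClosure (word '' relSet m)
  have hker : (PresentedGroup.mk (word '' (relLang : Set (List Letter)))).ker =
      Subgroup.normalClosure (word '' (relLang : Set (List Letter))) :=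
    QuotientGroup.ker_mk' _
  have hmono : Monotone N := by
    intro m m' hm
    apply Subgroup.normalClosure_mono
    apply Set.image_mono
    apply Set.union_subset_union_right
    apply Set.image_mono
    intro n hn
    exact lt_of_lt_of_le hn hm
  obtain ⟨m, hm⟩ := exists_ker_le (PresentedGroup.mk (word '' (relLang : Set (List Letter))))
    (PresentedGroup.mk_surjective _) N (fun m => inferInstance) hmono (by
      intro x hx
      rw [hker] at hx
      -- the union of the `N m` is a normal subgroup containing all relators
      induction hx using Subgroup.closure_induction with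
      | mem x hx =>
        obtain ⟨y, hy, hxy⟩ := Group.mem_conjugatesOfSet_iff.1 hx
        obtain ⟨w, hw, rfl⟩ := hy
        have : ∃ m, word w ∈ N m := by
          rcases hw with hw | ⟨n, rfl⟩
          · exact ⟨0, Subgroup.subset_normalClosure ⟨w, Or.inl hw, rfl⟩⟩
          · exact ⟨n + 1, Subgroup.subset_normalClosure
              ⟨rel n, Or.inr ⟨n, Nat.lt_succ_self n, rfl⟩, rfl⟩⟩
        obtain ⟨m, hm⟩ := this
        refine ⟨m, ?_⟩
        obtain ⟨c, hc⟩ := isConj_iff.1 hxy
        rw [← hc]
        exact (inferInstance : (N m).Normal).conj_mem _ hm c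
      | one => exact ⟨0, one_mem _⟩
      | mul x y _ _ hx hy =>
        obtain ⟨m₁, h₁⟩ := hx
        obtain ⟨m₂, h₂⟩ := hy
        exact ⟨max m₁ m₂, mul_mem (hmono (le_max_left _ _) h₁) (hmono (le_max_right _ _) h₂)⟩
      | inv x _ hx =>
        obtain ⟨m, h⟩ := hx
        exact ⟨m, inv_mem h⟩)
  have h1 : word (rel (m + 1)) ∈
      (PresentedGroup.mk (word '' (relLang : Set (List Letter)))).ker := by
    rw [hker]
    exact Subgroup.subset_normalClosure ⟨rel (m + 1), Or.inr ⟨m + 1, rfl⟩, rfl⟩
  have h2 : word (rel (m + 1)) ∈ N (m + 1) := hmono (Nat.le_succ m) (hm h1)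
  exact permRep_rel_self (Nat.succ_pos m) (permRep_relSet h2)

/-! ### The language of relators is indexed -/

/-- Nonterminals of the grammar. -/
inductive NTs : Type
  | S | P | X | Y
  deriving DecidableEq, Fintype

/-- Flags of the grammar. -/
inductive Flags : Type
  | f | e
  deriving DecidableEq, Fintype

open NTs Flags

/-- The indexed grammar
`S → a a' | t t' | P e`, `P → P f | a X a Y a' X a' Y`, `X f → t X`, `X e → ε`, `Y f → t' Y`,
`Y e → ε`. -/
abbrev gram : IndexedGrammar Letter where
  NT := NTs
  Flag := Flags
  finite_NT := inferInstance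
  finite_Flag := inferInstance
  start := S
  copyRules := {(S, [Sum.inl a, Sum.inl a']), (S, [Sum.inl t, Sum.inl t']),
    (P, [Sum.inl a, Sum.inr X, Sum.inl a, Sum.inr Y, Sum.inl a', Sum.inr X, Sum.inl a',
      Sum.inr Y])}
  pushRules := {(S, P, e), (P, P, f)}
  popRules := {(X, f, [Sum.inl t, Sum.inr X]), (X, e, []), (Y, f, [Sum.inl t', Sum.inr Y]),
    (Y, e, [])}
  finite_copyRules := by simp
  finite_pushRules := by simp
  finite_popRules := by simp

/-- A language attached to each symbol carrying a stack. -/
def sem : Letter ⊕ (NTs × List Flags) → Language Letter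
  | Sum.inl x => {[x]}
  | Sum.inr (S, _) => relLang
  | Sum.inr (P, _) => (Set.range rel : Set (List Letter))
  | Sum.inr (X, l) => {w | ∃ k m, l = List.replicate k f ++ e :: m ∧ w = List.replicate k t}
  | Sum.inr (Y, l) => {w | ∃ k m, l = List.replicate k f ++ e :: m ∧ w = List.replicate k t'}

/-- The language attached to a sentential form. -/
def semForm (u : List (Letter ⊕ (NTs × List Flags))) : Language Letter := (u.map sem).prod

lemma semForm_append (u v : List (Letter ⊕ (NTs × List Flags))) :
    semForm (u ++ v) = semForm u * semForm v := by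
  simp [semForm]

lemma replicate_append_unique {k k' : ℕ} {m m' : List Flags}
    (h : List.replicate k f ++ e :: m = List.replicate k' f ++ e :: m') : k = k' ∧ m = m' := by
  induction k generalizing k' with
  | zero =>
    cases k' with
    | zero => simpa using h
    | succ k' => simp [List.replicate_succ] at h
  | succ k ih =>
    cases k' with
    | zero => simp [List.replicate_succ] at h
    | succ k' =>
      rw [List.replicate_succ, List.replicate_succ, List.cons_append, List.cons_append] at h
      have := ih (List.cons.inj h).2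
      exact ⟨by rw [this.1], this.2⟩

lemma mem_semForm_cons (x : Letter ⊕ (NTs × List Flags)) (u : List (Letter ⊕ (NTs × List Flags)))
    (w : List Letter) :
    w ∈ semForm (x :: u) ↔ ∃ w₁ ∈ sem x, ∃ w₂ ∈ semForm u, w₁ ++ w₂ = w := by
  simp only [semForm, List.map_cons, List.prod_cons]
  exact Language.mem_mul

lemma semForm_nil : semForm [] = 1 := rfl

lemma mem_semForm_nil (w : List Letter) : w ∈ semForm [] ↔ w = [] := by
  rw [semForm_nil]; exact Language.mem_one w

lemma semForm_map_inl (w : List Letter) : ∀ v, v ∈ semForm (w.map Sum.inl) ↔ v = w := by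
  induction w with
  | nil => intro v; exact mem_semForm_nil v
  | cons x w ih =>
    intro v
    rw [List.map_cons, mem_semForm_cons]
    constructor
    · rintro ⟨w₁, h₁, w₂, h₂, rfl⟩
      rw [ih] at h₂
      have : w₁ = [x] := h₁
      rw [this, h₂]
      rfl
    · rintro rfl
      exact ⟨[x], rfl, w, (ih w).2 rfl, rfl⟩

lemma semForm_singleton (x : Letter ⊕ (NTs × List Flags)) : semForm [x] = sem x := by
  simp [semForm]

lemma semForm_context {u v : List (Letter ⊕ (NTs × List Flags))} (h : semForm v ≤ semForm u)
    (p q : List (Letter ⊕ (NTs × List Flags))) :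
    semForm (p ++ v ++ q) ≤ semForm (p ++ u ++ q) := by
  simp only [semForm_append]
  gcongr

lemma sem_step {u v : gram.Form} (h : gram.Step u v) : semForm v ≤ semForm u := by
  cases h with
  | copy p q A l α hα =>
    apply semForm_context
    rw [semForm_singleton]
    rcases hα with h | h | h
    · obtain ⟨rfl, rfl⟩ := Prod.mk.inj h
      intro w hw
      have := (semForm_map_inl [a, a'] w).1 hw
      rw [this]
      exact Or.inl (Or.inl rfl)
    · obtain ⟨rfl, rfl⟩ := Prod.mk.inj h
      intro w hw
      have := (semForm_map_inl [t, t'] w).1 hw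
      rw [this]
      exact Or.inl (Or.inr rfl)
    · obtain ⟨rfl, rfl⟩ := Prod.mk.inj (Set.mem_singleton_iff.1 h)
      intro w hw
      simp only [IndexedGrammar.distribute, List.map_cons, List.map_nil, Sum.map_inl, Sum.map_inr,
        id] at hw
      replace hw := (mem_semForm_cons _ _ _).1 hw
      obtain ⟨w₁, h₁, w', hw, rfl⟩ := hw
      replace hw := (mem_semForm_cons _ _ _).1 hw
      obtain ⟨w₂, h₂, w', hw, rfl⟩ := hw
      replace hw := (mem_semForm_cons _ _ _).1 hw
      obtain ⟨w₃, h₃, w', hw, rfl⟩ := hw
      replace hw := (mem_semForm_cons _ _ _).1 hw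
      obtain ⟨w₄, h₄, w', hw, rfl⟩ := hw
      replace hw := (mem_semForm_cons _ _ _).1 hw
      obtain ⟨w₅, h₅, w', hw, rfl⟩ := hw
      replace hw := (mem_semForm_cons _ _ _).1 hw
      obtain ⟨w₆, h₆, w', hw, rfl⟩ := hw
      replace hw := (mem_semForm_cons _ _ _).1 hw
      obtain ⟨w₇, h₇, w', hw, rfl⟩ := hw
      replace hw := (mem_semForm_cons _ _ _).1 hw
      obtain ⟨w₈, h₈, w', hw, rfl⟩ := hw
      replace hw := (mem_semForm_nil _).1 hw
      obtain ⟨k₂, m₂, e₂, rfl⟩ := h₂
      obtain ⟨k₄, m₄, e₄, rfl⟩ := h₄
      obtain ⟨k₆, m₆, e₆, rfl⟩ := h₆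
      obtain ⟨k₈, m₈, e₈, rfl⟩ := h₈
      have h₁' : w₁ = [a] := h₁
      have h₃' : w₃ = [a] := h₃
      have h₅' : w₅ = [a'] := h₅
      have h₇' : w₇ = [a'] := h₇
      have q₄ := (replicate_append_unique (e₂.symm.trans e₄)).1
      have q₆ := (replicate_append_unique (e₂.symm.trans e₆)).1
      have q₈ := (replicate_append_unique (e₂.symm.trans e₈)).1
      refine ⟨k₂, ?_⟩
      rw [h₁', h₃', h₅', h₇', hw, ← q₄, ← q₆, ← q₈]
      simp [rel]
  | push p q A B fl l hα =>
    apply semForm_context
    rw [semForm_singleton, semForm_singleton]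
    rcases hα with h | h
    · obtain ⟨rfl, h'⟩ := Prod.mk.inj h
      obtain ⟨rfl, rfl⟩ := Prod.mk.inj h'
      intro w hw
      exact Or.inr hw
    · obtain ⟨rfl, h'⟩ := Prod.mk.inj (Set.mem_singleton_iff.1 h)
      obtain ⟨rfl, rfl⟩ := Prod.mk.inj h'
      exact le_rfl
  | pop p q A fl l α hα =>
    apply semForm_context
    rw [semForm_singleton]
    rcases hα with h | h | h | h
    · obtain ⟨rfl, h'⟩ := Prod.mk.inj h
      obtain ⟨rfl, rfl⟩ := Prod.mk.inj h'
      intro w hw
      simp only [IndexedGrammar.distribute, List.map_cons, List.map_nil, Sum.map_inl, Sum.map_inr,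
        id] at hw
      replace hw := (mem_semForm_cons _ _ _).1 hw
      obtain ⟨w₁, h₁, w', hw, rfl⟩ := hw
      replace hw := (mem_semForm_cons _ _ _).1 hw
      obtain ⟨w₂, h₂, w', hw, rfl⟩ := hw
      replace hw := (mem_semForm_nil _).1 hw
      obtain ⟨k, m, hk, rfl⟩ := h₂
      have h₁' : w₁ = [t] := h₁
      refine ⟨k + 1, m, ?_, ?_⟩
      · rw [hk]; rfl
      · rw [h₁', hw]; simp [List.replicate_succ]
    · obtain ⟨rfl, h'⟩ := Prod.mk.inj h
      obtain ⟨rfl, rfl⟩ := Prod.mk.inj h'
      intro w hw
      have : w = [] := (mem_semForm_nil w).1 hw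
      exact ⟨0, l, rfl, this⟩
    · obtain ⟨rfl, h'⟩ := Prod.mk.inj h
      obtain ⟨rfl, rfl⟩ := Prod.mk.inj h'
      intro w hw
      simp only [IndexedGrammar.distribute, List.map_cons, List.map_nil, Sum.map_inl, Sum.map_inr,
        id] at hw
      replace hw := (mem_semForm_cons _ _ _).1 hw
      obtain ⟨w₁, h₁, w', hw, rfl⟩ := hw
      replace hw := (mem_semForm_cons _ _ _).1 hw
      obtain ⟨w₂, h₂, w', hw, rfl⟩ := hw
      replace hw := (mem_semForm_nil _).1 hw
      obtain ⟨k, m, hk, rfl⟩ := h₂
      have h₁' : w₁ = [t'] := h₁
      refine ⟨k + 1, m, ?_, ?_⟩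
      · rw [hk]; rfl
      · rw [h₁', hw]; simp [List.replicate_succ]
    · obtain ⟨rfl, h'⟩ := Prod.mk.inj (Set.mem_singleton_iff.1 h)
      obtain ⟨rfl, rfl⟩ := Prod.mk.inj h'
      intro w hw
      have : w = [] := (mem_semForm_nil w).1 hw
      exact ⟨0, l, rfl, this⟩

lemma sem_derives {u v : gram.Form} (h : Relation.ReflTransGen gram.Step u v) :
    semForm v ≤ semForm u := by
  induction h with
  | refl => exact le_rfl
  | tail _ h ih => exact (sem_step h).trans ih

lemma step_context {T : Type} {γ : IndexedGrammar T} {u v : γ.Form} (h : γ.Step u v)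
    (p q : γ.Form) : γ.Step (p ++ u ++ q) (p ++ v ++ q) := by
  cases h with
  | copy p' q' A l α hα =>
    have := IndexedGrammar.Step.copy (γ := γ) (p ++ p') (q' ++ q) A l α hα
    simpa [List.append_assoc] using this
  | push p' q' A B fl l hα =>
    have := IndexedGrammar.Step.push (γ := γ) (p ++ p') (q' ++ q) A B fl l hα
    simpa [List.append_assoc] using this
  | pop p' q' A fl l α hα =>
    have := IndexedGrammar.Step.pop (γ := γ) (p ++ p') (q' ++ q) A fl l α hα
    simpa [List.append_assoc] using this

lemma derives_context {T : Type} {γ : IndexedGrammar T} {u v : γ.Form}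
    (h : Relation.ReflTransGen γ.Step u v) (p q : γ.Form) :
    Relation.ReflTransGen γ.Step (p ++ u ++ q) (p ++ v ++ q) := by
  induction h with
  | refl => exact .refl
  | tail _ h ih => exact ih.tail (step_context h p q)

lemma derives_mul {T : Type} {γ : IndexedGrammar T} {u v u' v' : γ.Form}
    (h : Relation.ReflTransGen γ.Step u u') (h' : Relation.ReflTransGen γ.Step v v') :
    Relation.ReflTransGen γ.Step (u ++ v) (u' ++ v') := by
  have h1 := derives_context h [] v
  have h2 := derives_context h' u' []
  simp only [List.nil_append, List.append_nil] at h1 h2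
  exact h1.trans h2

lemma derives_X (k : ℕ) (m : List Flags) :
    Relation.ReflTransGen gram.Step [Sum.inr (X, List.replicate k f ++ e :: m)]
      ((List.replicate k t).map Sum.inl) := by
  induction k with
  | zero =>
    have := IndexedGrammar.Step.pop (γ := gram) [] [] X e m []
      (by simp [gram])
    exact Relation.ReflTransGen.single this
  | succ k ih =>
    have h1 := IndexedGrammar.Step.pop (γ := gram) [] [] X f (List.replicate k f ++ e :: m)
      [Sum.inl t, Sum.inr X] (by simp [gram])
    refine Relation.ReflTransGen.head h1 ?_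
    exact derives_mul (γ := gram) (u := [Sum.inl t]) (u' := [Sum.inl t]) .refl ih

lemma derives_Y (k : ℕ) (m : List Flags) :
    Relation.ReflTransGen gram.Step [Sum.inr (Y, List.replicate k f ++ e :: m)]
      ((List.replicate k t').map Sum.inl) := by
  induction k with
  | zero =>
    have := IndexedGrammar.Step.pop (γ := gram) [] [] Y e m []
      (by simp [gram])
    exact Relation.ReflTransGen.single this
  | succ k ih =>
    have h1 := IndexedGrammar.Step.pop (γ := gram) [] [] Y f (List.replicate k f ++ e :: m)
      [Sum.inl t', Sum.inr Y] (by simp [gram])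
    refine Relation.ReflTransGen.head h1 ?_
    exact derives_mul (γ := gram) (u := [Sum.inl t']) (u' := [Sum.inl t']) .refl ih

lemma derives_P (k : ℕ) :
    Relation.ReflTransGen gram.Step [Sum.inr (S, [])]
      [Sum.inr (P, List.replicate k f ++ [e])] := by
  induction k with
  | zero =>
    exact Relation.ReflTransGen.single
      (IndexedGrammar.Step.push (γ := gram) [] [] S P e [] (by simp [gram]))
  | succ k ih =>
    exact ih.tail (IndexedGrammar.Step.push (γ := gram) [] [] P P f
      (List.replicate k f ++ [e]) (by simp [gram]))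

lemma derives_rel (k : ℕ) :
    Relation.ReflTransGen gram.Step [Sum.inr (S, [])] ((rel k).map Sum.inl) := by
  refine (derives_P k).trans ?_
  have h1 := IndexedGrammar.Step.copy (γ := gram) [] [] P (List.replicate k f ++ [e])
      [Sum.inl a, Sum.inr X, Sum.inl a, Sum.inr Y, Sum.inl a', Sum.inr X, Sum.inl a',
      Sum.inr Y] (by simp [gram])
  refine Relation.ReflTransGen.head h1 ?_
  have hX := derives_X k []
  have hY := derives_Y k []
  have h : Relation.ReflTransGen gram.Step
      ([Sum.inl a] ++ [Sum.inr (X, List.replicate k f ++ [e])] ++ [Sum.inl a] ++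
        [Sum.inr (Y, List.replicate k f ++ [e])] ++ [Sum.inl a'] ++
        [Sum.inr (X, List.replicate k f ++ [e])] ++ [Sum.inl a'] ++
        [Sum.inr (Y, List.replicate k f ++ [e])])
      ([Sum.inl a] ++ (List.replicate k t).map Sum.inl ++ [Sum.inl a] ++
        (List.replicate k t').map Sum.inl ++ [Sum.inl a'] ++
        (List.replicate k t).map Sum.inl ++ [Sum.inl a'] ++
        (List.replicate k t').map Sum.inl) :=
    derives_mul (derives_mul (derives_mul (derives_mul (derives_mul (derives_mul (derives_mul
      .refl hX) .refl) hY) .refl) hX) .refl) hY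
  simpa [rel, IndexedGrammar.distribute] using h

theorem isIndexed_relLang : IsIndexed relLang := by
  refine ⟨gram, ?_⟩
  ext w
  constructor
  · intro hw
    have h : semForm (w.map Sum.inl) ≤ semForm [Sum.inr (S, [])] := sem_derives hw
    have := h ((semForm_map_inl w w).2 rfl)
    rwa [semForm_singleton] at this
  · rintro ((rfl | rfl) | ⟨k, rfl⟩)
    · exact Relation.ReflTransGen.single
        (IndexedGrammar.Step.copy (γ := gram) [] [] S [] [Sum.inl a, Sum.inl a'] (by simp [gram]))
    · exact Relation.ReflTransGen.single
        (IndexedGrammar.Step.copy (γ := gram) [] [] S [] [Sum.inl t, Sum.inl t'] (by simp [gram]))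
    · exact derives_rel k

/-- **Answer to Q1 (yes).** There is a finitely generated group which is a nested stack group (it has
a presentation over a finite alphabet with an indexed set of relators) and is not a context-free
group (it has no presentation over a finite alphabet with a context-free set of relators). -/
theorem result : ∃ (G : Type) (_ : Group G),
    Group.FG G ∧ IsNestedStackGroup G ∧ ¬ IsContextFreeGroup G := by
  refine ⟨GroupDefinedBy relLang, inferInstance, ?_, ⟨Letter, inferInstance, relLang,
    isIndexed_relLang, ⟨MulEquiv.refl _⟩⟩, fun h => not_isFinitelyPresented h.isFinitelyPresented⟩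
  rw [Group.fg_iff]
  exact ⟨Set.range PresentedGroup.of, PresentedGroup.closure_range_of _, Set.finite_range _⟩

end Pool.Agent.Results.MP_c0d803_al.NestedStackNotContextFree
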